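import Mathlib
import Pool.Agent.Helper95_CM.StK

/-!
# CM: basic lemmas on Laurent series
-/

set_option autoImplicit false

namespace Pool.Agent.Helper95_CM.H32

open HahnSeries

section ring

variable {R : Type} [CommRing R]

/-- The coefficient of a product, as a sum over one support. -/
lemma mul_coeff_sum (x y : LaurentSeries R) (m : ℤ) :
    (x * y).coeff m = ∑ ij ∈ Finset.antidiagonal x.isPWO_support y.isPWO_support m,
      x.coeff ij.1 * y.coeff ij.2 := HahnSeries.coeff_mul

lemma tht_mul (x y : LaurentSeries R) :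
    tht R (x * y) = tht R x * y + x * tht R y := by
  ext m
  rw [tht_coeff, coeff_add, mul_coeff_sum]
  have h1 : (tht R x * y).coeff m =
      ∑ ij ∈ Finset.antidiagonal x.isPWO_support y.isPWO_support m,
        (tht R x).coeff ij.1 * y.coeff ij.2 := by
    apply HahnSeries.coeff_mul_left' x.isPWO_support
    intro a ha h0
    apply ha
    rw [tht_coeff, h0, mul_zero]
  have h2 : (x * tht R y).coeff m =
      ∑ ij ∈ Finset.antidiagonal x.isPWO_support y.isPWO_support m,
        x.coeff ij.1 * (tht R y).coeff ij.2 := by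
    apply HahnSeries.coeff_mul_right' y.isPWO_support
    intro a ha h0
    apply ha
    rw [tht_coeff, h0, mul_zero]
  rw [h1, h2, Finset.mul_sum, ← Finset.sum_add_distrib]
  apply Finset.sum_congr rfl
  intro ij hij
  rw [Finset.mem_antidiagonal] at hij
  rw [tht_coeff, tht_coeff, ← hij.2.2]
  push_cast
  ring

lemma ordGe_zero (a : ℤ) : OrdGe a (0 : LaurentSeries R) := fun _ _ => rfl

lemma og_mono {a b : ℤ} (h : b ≤ a) {x : LaurentSeries R} (hx : OrdGe a x) : OrdGe b x :=
  fun i hi => hx i (lt_of_lt_of_le hi h)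

lemma og_add {a : ℤ} {x y : LaurentSeries R} (hx : OrdGe a x) (hy : OrdGe a y) :
    OrdGe a (x + y) := fun i hi => by rw [coeff_add, hx i hi, hy i hi, add_zero]

lemma og_neg {a : ℤ} {x : LaurentSeries R} (hx : OrdGe a x) : OrdGe a (-x) :=
  fun i hi => by rw [coeff_neg, hx i hi, neg_zero]

lemma og_sub {a : ℤ} {x y : LaurentSeries R} (hx : OrdGe a x) (hy : OrdGe a y) :
    OrdGe a (x - y) := fun i hi => by rw [coeff_sub, hx i hi, hy i hi, sub_zero]

lemma og_sum {a : ℤ} {ι : Type} (s : Finset ι) (x : ι → LaurentSeries R)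
    (hx : ∀ i ∈ s, OrdGe a (x i)) : OrdGe a (∑ i ∈ s, x i) := by
  classical
  induction s using Finset.induction_on with
  | empty => simpa using ordGe_zero a
  | insert i s hi ih =>
    rw [Finset.sum_insert hi]
    exact og_add (hx i (Finset.mem_insert_self _ _))
      (ih fun j hj => hx j (Finset.mem_insert_of_mem hj))

lemma og_mul {a b : ℤ} {x y : LaurentSeries R} (hx : OrdGe a x) (hy : OrdGe b y) :
    OrdGe (a + b) (x * y) := by
  intro i hi
  rw [mul_coeff_sum]
  apply Finset.sum_eq_zero
  intro ij hij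
  rw [Finset.mem_antidiagonal] at hij
  rcases lt_or_ge ij.1 a with h | h
  · rw [hx _ h, zero_mul]
  · rw [hy ij.2 (by omega), mul_zero]

lemma og_tht {a : ℤ} {x : LaurentSeries R} (hx : OrdGe a x) : OrdGe a (tht R x) :=
  fun i hi => by rw [tht_coeff, hx i hi, mul_zero]

/-- Every Laurent series has an order. -/
lemma exists_ordGe (x : LaurentSeries R) : ∃ a : ℤ, OrdGe a x := by
  refine ⟨x.order, fun i hi => ?_⟩
  exact HahnSeries.coeff_eq_zero_of_lt_order hi

lemma exists_ordGe_fin {ι : Type} (s : Finset ι) (x : ι → LaurentSeries R) :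
    ∃ a : ℤ, ∀ i ∈ s, OrdGe a (x i) := by
  classical
  induction s using Finset.induction_on with
  | empty => exact ⟨0, by simp⟩
  | insert i s hi ih =>
    obtain ⟨a, ha⟩ := ih
    obtain ⟨b, hb⟩ := exists_ordGe (x i)
    refine ⟨min a b, fun j hj => ?_⟩
    rcases Finset.mem_insert.mp hj with rfl | hj
    · exact og_mono (min_le_right _ _) hb
    · exact og_mono (min_le_left _ _) (ha j hj)

lemma ordGe_coe (y : PowerSeries R) : OrdGe 0 (y : LaurentSeries R) := by
  intro i hi
  rw [PowerSeries.coeff_coe, if_pos hi]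

lemma exists_coe {x : LaurentSeries R} (hx : OrdGe 0 x) :
    ∃ y : PowerSeries R, (y : LaurentSeries R) = x := by
  refine ⟨PowerSeries.mk fun n => x.coeff (n : ℤ), ?_⟩
  ext i
  rw [PowerSeries.coeff_coe]
  split_ifs with h
  · exact (hx i h).symm
  · rw [PowerSeries.coeff_mk]
    congr 1
    omega

/-- The terms of exponent `≤ a`. -/
noncomputable def trn (a : ℤ) (x : LaurentSeries R) : LaurentSeries R where
  coeff m := if m ≤ a then x.coeff m else 0
  isPWO_support' := x.isPWO_support.mono (by
    intro m hm h0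
    apply hm
    simp only
    rw [h0]
    split_ifs <;> rfl)

lemma trn_coeff (a : ℤ) (x : LaurentSeries R) (m : ℤ) :
    (trn a x).coeff m = if m ≤ a then x.coeff m else 0 := rfl

lemma sub_trn (a : ℤ) (x : LaurentSeries R) : OrdGe (a + 1) (x - trn a x) := by
  intro i hi
  rw [coeff_sub, trn_coeff, if_pos (by omega), sub_self]

end ring

end Pool.Agent.Helper95_CM.H32
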