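import Mathlib
import Pool.Agent.Helper95_CM.StK
import Pool.Agent.Helper95_CM.Asm
import Pool.Agent.Helper32_CM.Lau

/-!
# CM, module EXPK: the exponents are rational numbers
-/

set_option autoImplicit false

namespace Pool.Agent.Helper95_CM.H32

open HahnSeries

/-- Formal solution of `∇ x = a x` modulo `t^E`. -/
lemma exists_sol {F : Type} [Field F] {I : Type} [Fintype I] [DecidableEq I]
    (Qk : ℕ → Matrix I I F) (a0 : F) (h0 : (Qk 0).charpoly.eval a0 = 0)
    (hm : ∀ m : ℕ, 1 ≤ m → (Qk 0).charpoly.eval (a0 - (m : F)) ≠ 0) (E : ℕ) :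
    ∃ xs : ℕ → I → F, xs 0 ≠ 0 ∧ ∀ n, n < E →
      (n : F) • xs n + ∑ r ∈ Finset.range (n + 1), (Qk (n - r)).mulVec (xs r) = a0 • xs n := by
  classical
  rw [Matrix.eval_charpoly, ← Matrix.exists_mulVec_eq_zero_iff] at h0
  obtain ⟨v, hv, hv0⟩ := h0
  have hv1 : (Qk 0).mulVec v = a0 • v := by
    rw [Matrix.sub_mulVec, sub_eq_zero] at hv0
    rw [← hv0]
    funext i
    simp [Matrix.scalar_apply, Matrix.mulVec_diagonal]
  have key : ∃ xs : ℕ → I → F, xs 0 = v ∧ ∀ n, n < E →
      (n : F) • xs n + ∑ r ∈ Finset.range (n + 1), (Qk (n - r)).mulVec (xs r) = a0 • xs n := by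
    induction E with
    | zero => exact ⟨fun _ => v, rfl, fun n hn => absurd hn (Nat.not_lt_zero n)⟩
    | succ E ih =>
      obtain ⟨xs, hx0, hx⟩ := ih
      rcases Nat.eq_zero_or_pos E with hE | hE
      · subst hE
        refine ⟨xs, hx0, fun n hn => ?_⟩
        have : n = 0 := by omega
        subst this
        rw [hx0]
        simp [hv1, hx0]
      · set M : Matrix I I F := Matrix.scalar I (a0 - (E : F)) - Qk 0 with hM
        have hdet : M.det ≠ 0 := by
          have := hm E hE
          rwa [Matrix.eval_charpoly] at this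
        set s : I → F := ∑ r ∈ Finset.range E, (Qk (E - r)).mulVec (xs r) with hs
        set nw : I → F := M⁻¹.mulVec s with hnw
        have h1 : M.mulVec nw = s := by
          rw [hnw, Matrix.mulVec_mulVec, Matrix.mul_nonsing_inv _ (isUnit_iff_ne_zero.mpr hdet),
            Matrix.one_mulVec]
        refine ⟨Function.update xs E nw, ?_, fun n hn => ?_⟩
        · rw [Function.update_of_ne (by omega)]
          exact hx0
        · rcases Nat.lt_or_ge n E with hnE | hnE
          · rw [Function.update_of_ne (by omega)]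
            rw [Finset.sum_congr rfl (g := fun r => (Qk (n - r)).mulVec (xs r))]
            · exact hx n hnE
            · intro r hr
              rw [Finset.mem_range] at hr
              rw [Function.update_of_ne (by omega)]
          · have : n = E := by omega
            subst this
            rw [Function.update_self, Finset.sum_range_succ, Function.update_self, Nat.sub_self]
            rw [Finset.sum_congr rfl (g := fun r => (Qk (n - r)).mulVec (xs r))]
            · rw [← hs, ← h1, hM, Matrix.sub_mulVec]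
              have h2 : (Matrix.scalar I (a0 - (n : F))).mulVec nw = (a0 - (n : F)) • nw := by
                funext i
                simp [Matrix.scalar_apply, Matrix.mulVec_diagonal]
              rw [h2, sub_smul]
              abel
            · intro r hr
              rw [Finset.mem_range] at hr
              rw [Function.update_of_ne (by omega)]
  obtain ⟨xs, h1, h2⟩ := key
  exact ⟨xs, by rw [h1]; exact hv, h2⟩

/-- Coefficients of a product of two power series. -/
lemma coeff_mul_nat {R : Type} [CommRing R] {x y : LaurentSeries R} (hx : OrdGe 0 x)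
    (hy : OrdGe 0 y) (n : ℕ) :
    (x * y).coeff (n : ℤ) =
      ∑ r ∈ Finset.range (n + 1), x.coeff ((n - r : ℕ) : ℤ) * y.coeff (r : ℤ) := by
  obtain ⟨X, rfl⟩ := exists_coe hx
  obtain ⟨Y, rfl⟩ := exists_coe hy
  rw [← PowerSeries.coe_mul]
  have h1 : ∀ (Z : PowerSeries R) (m : ℕ), (Z : LaurentSeries R).coeff (m : ℤ) =
      PowerSeries.coeff m Z := by
    intro Z m
    exact LaurentSeries.coeff_coe_powerSeries Z m
  rw [h1, PowerSeries.coeff_mul, Finset.Nat.sum_antidiagonal_eq_sum_range_succ_mk]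
  rw [← Finset.sum_range_reflect]
  apply Finset.sum_congr rfl
  intro r hr
  rw [Finset.mem_range] at hr
  rw [h1, h1]
  have h2 : n + 1 - 1 - r = n - r := by omega
  have h3 : n - (n - r) = r := by omega
  rw [h2, h3]

/-! ### Change of coefficients -/

section change

variable {q : ℕ} {R S : Type} [CommRing R] [CommRing S]

lemma mL_coeff (g : R →+* S) (x : LL q R) (m : ℤ) : (mL q g x).coeff m = mO q g (x.coeff m) :=
  rfl

lemma mC_inj {g : R →+* S} (hg : Function.Injective g) : Function.Injective (mC q g) := by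
  intro x y h
  ext m
  apply hg
  exact congrArg (fun z : CC q S => z.coeff m) h

lemma mO_inj {g : R →+* S} (hg : Function.Injective g) : Function.Injective (mO q g) := by
  intro x y h
  apply HahnSeries.ext
  funext m
  apply mC_inj hg
  exact congrArg (fun z : OO q S => z.coeff m) h

lemma mL_inj {g : R →+* S} (hg : Function.Injective g) : Function.Injective (mL q g) := by
  intro x y h
  apply HahnSeries.ext
  funext m
  apply mO_inj hg
  exact congrArg (fun z : LL q S => z.coeff m) h

lemma mL_tht (g : R →+* S) (x : LL q R) : mL q g (thLt q R x) = thLt q S (mL q g x) := by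
  apply HahnSeries.ext
  funext m
  rw [mL_coeff, tht_coeff, tht_coeff, mL_coeff, map_mul, map_intCast]

lemma mL_C (g : R →+* S) (y : OO q R) :
    mL q g (HahnSeries.C y) = HahnSeries.C (mO q g y) := by
  apply HahnSeries.ext
  funext m
  rw [mL_coeff, HahnSeries.C_apply, HahnSeries.C_apply]
  by_cases hm : m = 0
  · subst hm
    rw [HahnSeries.coeff_single_same, HahnSeries.coeff_single_same]
  · rw [HahnSeries.coeff_single_of_ne hm, HahnSeries.coeff_single_of_ne hm, map_zero]

lemma zq_inj (p : ℕ) [Fact p.Prime] : Function.Injective (zq p) :=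
  IsFractionRing.injective ℤ_[p] ℚ_[p]

/-- `∇ x - a x` and change of coefficients. -/
lemma mL_nbv {I : Type} [Fintype I] (g : R →+* S) (Q : Matrix I I (LL q R))
    (x : I → LL q R) (a : OO q R) (i : I) :
    mL q g ((nbv (thLt q R) Q x - (HahnSeries.C a : LL q R) • x) i) =
      (nbv (thLt q S) (Q.map (mL q g)) (fun i => mL q g (x i)) -
        (HahnSeries.C (mO q g a) : LL q S) • (fun i => mL q g (x i))) i := by
  show mL q g (thLt q R (x i) + ∑ j, Q i j * x j - HahnSeries.C a * x i) =
    thLt q S (mL q g (x i)) + ∑ j, mL q g (Q i j) * mL q g (x j) -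
      HahnSeries.C (mO q g a) * mL q g (x i)
  rw [map_sub, map_add, mL_tht, map_sum, map_mul, mL_C]
  congr 2
  apply Finset.sum_congr rfl
  intro j _
  rw [map_mul]

end change

lemma kL_coeff (q : ℕ) {R : Type} [CommRing R] (b : R) : (kL q R b).coeff 0 = kO q R b := by
  show (HahnSeries.C (kO q R b) : LL q R).coeff 0 = kO q R b
  rw [HahnSeries.C_apply, HahnSeries.coeff_single_same]

lemma kO_coeff (q : ℕ) {R : Type} [CommRing R] (b : R) : ((kO q R b).coeff 0).coeff 0 = b := by
  show ((HahnSeries.C (HahnSeries.C b) : OO q R).coeff 0).coeff 0 = b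
  rw [HahnSeries.C_apply, HahnSeries.coeff_single_same, HahnSeries.C_apply,
    HahnSeries.coeff_single_same]

lemma kO_inj (q : ℕ) {R : Type} [CommRing R] : Function.Injective (kO q R) := by
  intro x y h
  rw [← kO_coeff q x, h, kO_coeff]

section stepB

open Polynomial

/-- The solution over the field `kF`. -/
lemma exists_sol_K (hSPG : SpgStmt) {q : ℕ} {K : Type} [Field K] [NumberField K] {I : Type}
    [Fintype I] [DecidableEq I] (Q : Matrix I I (LL q K)) {ρ : ℕ} (al : Fin ρ → K)
    (hG : ∀ i j, InG (Q i j)) (hP : PolF Q)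
    (hchar : (mco 0 Q).charpoly = ∏ l, (X - Polynomial.C (kO q K (al l))))
    (a : K) (ha : ∃ l, al l = a) (hmin : ∀ m : ℕ, 1 ≤ m → ∀ l, al l ≠ a - (m : K)) (E : ℕ)
    (hE : 1 ≤ E) :
    ∃ x : I → LL q K, (∀ i, InG (x i)) ∧ (∀ i, OrdGe 0 (x i)) ∧
      (∀ i, OrdGe (E : ℤ) ((nbv (thLt q K) Q x - (HahnSeries.C (kO q K a) : LL q K) • x) i)) ∧
      ∃ i, (x i).coeff 0 ≠ 0 := by
  classical
  obtain ⟨_, _, _, _, _, hkL, _, hlast⟩ := hSPG q K
  have hkO : ∀ b : K, kO q K b ∈ kF q K := by
    intro b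
    have := (hkL b).2 0
    rwa [kL_coeff] at this
  have hkOm : ∀ m : ℕ, kO q K (a - (m : K)) = kO q K a - (m : OO q K) := by
    intro m
    rw [map_sub, map_natCast]
  let k0 := kF q K
  let Qk : ℕ → Matrix I I k0 := fun n => Matrix.of fun i j =>
    ⟨(Q i j).coeff (n : ℤ), (hG i j).2 _⟩
  let a0 : k0 := ⟨kO q K a, hkO a⟩
  have hmap : (Qk 0).charpoly.map k0.subtype = ∏ l, (X - Polynomial.C (kO q K (al l))) := by
    rw [← Matrix.charpoly_map, ← hchar]
    congr 1
  have heval : ∀ b : k0, k0.subtype ((Qk 0).charpoly.eval b) =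
      ∏ l, (k0.subtype b - kO q K (al l)) := by
    intro b
    rw [← Polynomial.eval₂_at_apply, ← Polynomial.eval_map, hmap, Polynomial.eval_prod]
    apply Finset.prod_congr rfl
    intro l _
    rw [eval_sub, eval_X, eval_C]
  have h0 : (Qk 0).charpoly.eval a0 = 0 := by
    apply k0.subtype.injective
    rw [heval, map_zero]
    obtain ⟨l, hl⟩ := ha
    apply Finset.prod_eq_zero (Finset.mem_univ l)
    show kO q K a - kO q K (al l) = 0
    rw [hl, sub_self]
  have hm : ∀ m : ℕ, 1 ≤ m → (Qk 0).charpoly.eval (a0 - (m : k0)) ≠ 0 := by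
    intro m hm1 h1
    have h2 := congrArg k0.subtype h1
    rw [heval, map_zero, Finset.prod_eq_zero_iff] at h2
    obtain ⟨l, _, hl⟩ := h2
    apply hmin m hm1 l
    apply kO_inj q
    rw [hkOm]
    have h3 : k0.subtype (a0 - (m : k0)) = kO q K a - (m : OO q K) := by
      rw [map_sub, map_natCast]
      rfl
    rw [h3, sub_eq_zero] at hl
    exact hl.symm
  obtain ⟨xs, hxs0, hxs⟩ := exists_sol Qk a0 h0 hm E
  obtain ⟨x, hcoef, hneg⟩ : ∃ x : I → LL q K,
      (∀ i (n : ℕ), (x i).coeff (n : ℤ) = if n < E then ((xs n i : k0) : OO q K) else 0) ∧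
      ∀ i, OrdGe 0 (x i) := by
    refine ⟨fun i => ∑ n ∈ Finset.range E,
      HahnSeries.single (n : ℤ) ((xs n i : k0) : OO q K), ?_, ?_⟩
    · intro i n
      rw [HahnSeries.coeff_sum]
      split_ifs with h
      · rw [Finset.sum_eq_single n]
        · rw [HahnSeries.coeff_single_same]
        · intro b _ hb
          rw [HahnSeries.coeff_single_of_ne]
          intro h'
          apply hb
          exact_mod_cast h'.symm
        · intro h'
          exact absurd (Finset.mem_range.mpr h) h'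
      · apply Finset.sum_eq_zero
        intro b hb
        rw [HahnSeries.coeff_single_of_ne]
        intro h'
        rw [Finset.mem_range] at hb
        have : (n : ℤ) = (b : ℤ) := h'
        omega
    · intro i m hm
      show (∑ n ∈ Finset.range E, HahnSeries.single (n : ℤ) ((xs n i : k0) : OO q K)).coeff m = _
      rw [HahnSeries.coeff_sum]
      apply Finset.sum_eq_zero
      intro b _
      rw [HahnSeries.coeff_single_of_ne]
      intro h'
      omega
  refine ⟨x, ?_, hneg, ?_, ?_⟩
  · intro i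
    apply hlast
    · intro m
      rcases lt_or_ge m 0 with h | h
      · rw [hneg i m h]
        exact (kF q K).zero_mem
      · obtain ⟨n, rfl⟩ := Int.eq_ofNat_of_zero_le h
        rw [hcoef]
        split_ifs
        · exact (xs n i).2
        · exact (kF q K).zero_mem
    · refine ⟨(E : ℤ), fun m hm => ?_⟩
      obtain ⟨n, rfl⟩ := Int.eq_ofNat_of_zero_le (a := m) (by omega)
      rw [hcoef, if_neg (by omega)]
  · intro i m hm
    have hQx : ∀ j, OrdGe 0 (Q i j * x j) := by
      intro j
      have := og_mul (hP i j) (hneg j)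
      simpa using this
    have hCx : ∀ m, (HahnSeries.C (kO q K a) * x i : LL q K).coeff m =
        kO q K a * (x i).coeff m := by
      intro m
      rw [HahnSeries.C_mul_eq_smul, HahnSeries.coeff_smul, smul_eq_mul]
    show (thLt q K (x i) + ∑ j, Q i j * x j - HahnSeries.C (kO q K a) * x i).coeff m = 0
    rw [HahnSeries.coeff_sub, HahnSeries.coeff_add, tht_coeff, HahnSeries.coeff_sum, hCx]
    rcases lt_or_ge m 0 with h | h
    · rw [hneg i m h, mul_zero, mul_zero, sub_zero, zero_add]
      apply Finset.sum_eq_zero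
      intro j _
      exact hQx j m h
    · obtain ⟨n, rfl⟩ := Int.eq_ofNat_of_zero_le h
      have hnE : n < E := by omega
      have h1 := congrFun (hxs n hnE) i
      have h2 := congrArg k0.subtype h1
      rw [hcoef, if_pos hnE]
      have h3 : ∀ j, (Q i j * x j).coeff (n : ℤ) = ∑ r ∈ Finset.range (n + 1),
          (Q i j).coeff ((n - r : ℕ) : ℤ) * ((xs r j : k0) : OO q K) := by
        intro j
        rw [coeff_mul_nat (hP i j) (hneg j)]
        apply Finset.sum_congr rfl
        intro r hr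
        rw [Finset.mem_range] at hr
        rw [hcoef, if_pos (by omega)]
      rw [Finset.sum_congr rfl fun j _ => h3 j, Finset.sum_comm, sub_eq_zero]
      have h4 : k0.subtype (((n : k0) • xs n +
          ∑ r ∈ Finset.range (n + 1), (Qk (n - r)).mulVec (xs r)) i) =
          (n : OO q K) * ((xs n i : k0) : OO q K) + ∑ r ∈ Finset.range (n + 1), ∑ j,
            (Q i j).coeff ((n - r : ℕ) : ℤ) * ((xs r j : k0) : OO q K) := by
        rw [Pi.add_apply, Finset.sum_apply, map_add, map_sum]
        congr 1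
        apply Finset.sum_congr rfl
        intro r _
        show k0.subtype (∑ j, Qk (n - r) i j * xs r j) = _
        rw [map_sum]
        rfl
      rw [h4] at h2
      have h5 : (((n : ℕ) : ℤ) : OO q K) = (n : OO q K) := by push_cast; rfl
      rw [h5, h2]
      rfl
  · have h1 : ∃ i, xs 0 i ≠ 0 := by
      by_contra hcon
      push Not at hcon
      exact hxs0 (funext hcon)
    obtain ⟨i, hi⟩ := h1
    refine ⟨i, ?_⟩
    have h2 := hcoef i 0
    rw [if_pos (by omega)] at h2
    have h3 : (x i).coeff 0 = ((xs 0 i : k0) : OO q K) := h2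
    rw [h3]
    intro h4
    exact hi (Subtype.ext h4)

/-- A common bound for a finite family. -/
lemma exists_bound {α : Type} [Fintype α] (f : α → ℕ) : ∃ b, ∀ i, f i ≤ b := by
  classical
  exact ⟨Finset.univ.sup f, fun i => Finset.le_sup (Finset.mem_univ i)⟩

lemma step_B (hEXPP : ExppStmt) (hNRM : NrmStmt) (hSPG : SpgStmt) (hSPO : SpoStmt)
    (hFRB : FrbStmt) {q : ℕ} {K : Type} [Field K] [NumberField K] {I : Type} [Fintype I]
    [DecidableEq I] (L : ℕ) (Q : Matrix I I (LL q K)) {ρ : ℕ} (al : Fin ρ → K)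
    (hF : FrobK L Q) (hP : PolF Q)
    (hchar : (mco 0 Q).charpoly = ∏ l, (X - Polynomial.C (kO q K (al l))))
    (a : K) (ha : ∃ l, al l = a) (hmin : ∀ m : ℕ, 1 ≤ m → ∀ l, al l ≠ a - (m : K)) :
    ∃ p0 : ℕ, ∀ (p : ℕ) [Fact p.Prime], p0 ≤ p → ∀ _ι : K →+* ℚ_[p], ∃ l, ∃ m : ℤ,
      (p : K) * a - al l - (m : K) = 0 := by
  classical
  obtain ⟨l0, hl0⟩ := ha
  set N1 := Module.finrank ℚ K + 1 with hN1
  set N := (2 * L + 1) * ρ + N1 * ρ + L + 1 with hN
  obtain ⟨Cc, p1, hF2⟩ := hF.2 N
  set E := 2 * Cc + 1 with hE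
  obtain ⟨x, hxG, hx0, hxE, i0, hi0⟩ :=
    exists_sol_K hSPG Q al hF.1 hP hchar a ⟨l0, hl0⟩ hmin E (by omega)
  obtain ⟨_, _, _, _, _, hkL, _, _⟩ := hSPG q K
  choose pQ hpQ using fun ij : I × I => (hF.1 ij.1 ij.2).1
  choose px hpx using fun i : I => (hxG i).1
  choose pa hpa using fun l : Fin ρ => (hkL (al l)).1
  obtain ⟨bQ, hbQ⟩ := exists_bound pQ
  obtain ⟨bx, hbx⟩ := exists_bound px
  obtain ⟨ba, hba⟩ := exists_bound pa
  choose pn hpn using fun l : Fin ρ => hNRM K a (al l) (Cc + 1)
  obtain ⟨bn, hbn⟩ := exists_bound pn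
  obtain ⟨_, _, _, hunit⟩ := hSPO q K ((x i0).coeff 0) ((hxG i0).2 0)
  obtain ⟨pu, hpu⟩ := hunit hi0
  refine ⟨p1 + bQ + bx + ba + bn + pu + (2 * Cc + 3), fun p _ hp ι => ?_⟩
  have hinj := mL_inj (q := q) (zq_inj p)
  have hinjO := mO_inj (q := q) (zq_inj p)
  -- lifts
  choose Q' hQ' using fun ij : I × I => hpQ ij p (by have := hbQ ij; omega) ι
  choose x' hx' using fun i : I => hpx i p (by have := hbx i; omega) ι
  choose y' hy' using fun l : Fin ρ => hpa l p (by have := hba l; omega) ι
  let al' : Fin ρ → ℤ_[p] := fun l => (((y' l).coeff 0).coeff 0).coeff 0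
  have hal' : ∀ l, zq p (al' l) = ι (al l) := by
    intro l
    have h1 := congrArg (fun z : LL q ℚ_[p] => ((z.coeff 0).coeff 0).coeff 0) (hy' l)
    have h2 : (((mL q ι (kL q K (al l))).coeff 0).coeff 0).coeff 0 = ι (al l) := by
      show ι ((((kL q K (al l)).coeff 0).coeff 0).coeff 0) = ι (al l)
      rw [kL_coeff, kO_coeff]
    exact h1.symm.trans h2
  let QQ : Matrix I I (LL q ℤ_[p]) := Matrix.of fun i j => Q' (i, j)
  have hlift : LiftM ι Q QQ := by
    ext1 i j
    exact hQ' (i, j)
  obtain ⟨hFAll, P, F, hFStr, hPle, hFle⟩ := hF2 p (by omega) ι QQ hlift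
  obtain ⟨_, _, hOB, hdvd⟩ := hFRB q p
  have hord : ∀ (m : ℤ) (y : LL q K) (y' : LL q ℤ_[p]), mL q ι y = mL q (zq p) y' →
      OrdGe m y → OrdGe m y' := by
    intro m y y' hyy hy i hi
    apply hinjO
    have h1 := congrArg (fun z : LL q ℚ_[p] => z.coeff i) hyy
    have h2 : mO q ι (y.coeff i) = mO q (zq p) (y'.coeff i) := h1
    rw [← h2, hy i hi, map_zero, map_zero]
  have hPQQ : PolF QQ := fun i j => hord 0 _ _ (hQ' (i, j)) (hP i j)
  -- Cayley-Hamilton
  have hCH : ((List.ofFn fun l => mco 0 QQ -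
      (kO q ℤ_[p] (al' l)) • (1 : Matrix I I (OO q ℤ_[p]))).prod = 0) := by
    have h1 : (List.ofFn fun l => mco 0 Q -
        (kO q K (al l)) • (1 : Matrix I I (OO q K))).prod = 0 := by
      have h2 := Matrix.aeval_self_charpoly (mco 0 Q)
      rw [hchar, ← List.prod_ofFn, map_list_prod, List.map_ofFn] at h2
      rw [← h2]
      congr 2
      funext l
      show mco 0 Q - (kO q K (al l)) • (1 : Matrix I I (OO q K)) =
        aeval (mco 0 Q) (X - Polynomial.C (kO q K (al l)))
      rw [map_sub, aeval_X, aeval_C, Algebra.algebraMap_eq_smul_one]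
    have h3 : Function.Injective (fun M : Matrix I I (OO q ℤ_[p]) => M.map (mO q (zq p))) := by
      intro M M' h
      ext1 i j
      apply hinjO
      exact congrFun (congrFun h i) j
    apply h3
    show ((mO q (zq p)).mapMatrix : Matrix I I (OO q ℤ_[p]) →+* Matrix I I (OO q ℚ_[p])) _ =
      ((mO q (zq p)).mapMatrix : Matrix I I (OO q ℤ_[p]) →+* Matrix I I (OO q ℚ_[p])) 0
    rw [map_zero, map_list_prod, List.map_ofFn]
    have h4 := congrArg
      ((mO q ι).mapMatrix : Matrix I I (OO q K) →+* Matrix I I (OO q ℚ_[p])) h1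
    rw [map_zero, map_list_prod, List.map_ofFn] at h4
    rw [← h4]
    congr 2
    funext l
    ext1 i j
    show mO q (zq p) ((mco 0 QQ - (kO q ℤ_[p] (al' l)) • (1 : Matrix I I (OO q ℤ_[p]))) i j) =
      mO q ι ((mco 0 Q - (kO q K (al l)) • (1 : Matrix I I (OO q K))) i j)
    rw [Matrix.sub_apply, Matrix.sub_apply, map_sub, map_sub, Matrix.smul_apply,
      Matrix.smul_apply, smul_eq_mul, smul_eq_mul, map_mul, map_mul, mO_kO, mO_kO, hal']
    have h5 : mO q (zq p) (mco 0 QQ i j) = mO q ι (mco 0 Q i j) := by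
      have h6 := congrArg (fun z : LL q ℚ_[p] => z.coeff 0) (hQ' (i, j))
      exact h6.symm
    have h7 : mO q (zq p) ((1 : Matrix I I (OO q ℤ_[p])) i j) =
        mO q ι ((1 : Matrix I I (OO q K)) i j) := by
      rw [Matrix.one_apply, Matrix.one_apply]
      split_ifs
      · rw [map_one, map_one]
      · rw [map_zero, map_zero]
    rw [h5, h7]
  -- the solution
  have hxE' : ∀ i, OrdGe (E : ℤ) ((nbv (tht (OO q ℤ_[p])) QQ x' -
      (HahnSeries.C (kO q ℤ_[p] (al' l0)) : LL q ℤ_[p]) • x') i) := by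
    intro i
    apply hord _ _ _ _ (hxE i)
    rw [mL_nbv, mL_nbv, mO_kO, mO_kO, hal', hl0]
    have h1 : Q.map (mL q ι) = QQ.map (mL q (zq p)) := hlift
    have h2 : (fun i => mL q ι (x i)) = (fun i => mL q (zq p) (x' i)) := funext hx'
    rw [h1, h2]
  have hnz : ∃ i, ¬ (p : OO q ℤ_[p]) ∣ (x' i).coeff 0 := by
    refine ⟨i0, fun hd => ?_⟩
    have h1 : mO q ι ((x i0).coeff 0) = mO q (zq p) ((x' i0).coeff 0) :=
      congrArg (fun z : LL q ℚ_[p] => z.coeff 0) (hx' i0)
    have h2 := hpu p (by omega) ι _ h1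
    exact not_dvd_one_OO q p (hd.trans h2.dvd)
  obtain ⟨l, m, hm1, hm2⟩ := hEXPP p (OO q ℤ_[p]) (kO q ℤ_[p]) (phO q ℤ_[p] p) I L N N1 Cc E ρ
    QQ P F al' (al' l0) x' hOB hFAll hPQQ hCH hFStr hPle hFle (by omega) (by omega) (by omega)
    (by omega) (fun i => hord 0 _ _ (hx' i) (hx0 i)) hxE' hnz hdvd
  refine ⟨l, m, ?_⟩
  apply hpn l p (by have := hbn l; omega) ι m
  · push_cast
    exact hm1
  · obtain ⟨c, hc⟩ := hm2
    have h1 : ι ((p : K) * a - al l - (m : K)) = zq p ((p : ℤ_[p]) ^ N1 * c) := by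
      rw [← hc, map_sub, map_sub, map_mul, map_sub, map_sub, map_mul, map_natCast, map_natCast,
        map_intCast, map_intCast, hal', hal', hl0]
    rw [h1]
    have h2 : zq p ((p : ℤ_[p]) ^ N1 * c) = (p : ℚ_[p]) ^ N1 * (c : ℚ_[p]) := by
      rw [map_mul, map_pow, map_natCast]
      rfl
    rw [h2, norm_mul, norm_pow, Padic.norm_p, inv_pow]
    apply mul_le_of_le_one_right (by positivity)
    exact c.2

/-- All exponents are rational. -/
lemma step_A (hEXPP : ExppStmt) (hNRM : NrmStmt) (hSPLIT : SplitStmt) (hSPG : SpgStmt)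
    (hSPO : SpoStmt) (hFRB : FrbStmt) {q : ℕ} {K : Type} [Field K] [NumberField K] {I : Type}
    [Fintype I] [DecidableEq I] (L : ℕ) (Q : Matrix I I (LL q K)) {ρ : ℕ} (al : Fin ρ → K)
    (hF : FrobK L Q) (hP : PolF Q)
    (hchar : (mco 0 Q).charpoly = ∏ l, (X - Polynomial.C (kO q K (al l)))) (l1 : Fin ρ) :
    ∃ r : ℚ, al l1 = (r : K) := by
  classical
  -- the smallest root in the coset
  have hfin : Set.Finite {m : ℕ | ∃ l, al l = al l1 - (m : K)} := by
    have h1 : Set.InjOn (fun m : ℕ => al l1 - (m : K)) {m : ℕ | ∃ l, al l = al l1 - (m : K)} := by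
      intro m _ m' _ h
      have h2 : (m : K) = (m' : K) := by
        have h3 : al l1 - (m : K) = al l1 - (m' : K) := h
        linear_combination -h3
      exact_mod_cast h2
    refine Set.Finite.of_finite_image ((Set.finite_range al).subset ?_) h1
    rintro _ ⟨m, ⟨l, hl⟩, rfl⟩
    exact ⟨l, hl⟩
  have hne : {m : ℕ | ∃ l, al l = al l1 - (m : K)}.Nonempty := ⟨0, l1, by simp⟩
  obtain ⟨M, hM, hmax⟩ := hfin.exists_maximal hne
  obtain ⟨l0, hl0⟩ := hM
  obtain ⟨p0, hp0⟩ := step_B hEXPP hNRM hSPG hSPO hFRB L Q al hF hP hchar (al l1 - (M : K))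
    ⟨l0, hl0⟩ (by
      intro m hm l hl
      have h1 : M + m ∈ {m : ℕ | ∃ l, al l = al l1 - (m : K)} := by
        refine ⟨l, ?_⟩
        rw [hl]
        push_cast
        ring
      have h2 := hmax h1 (Nat.le_add_right M m)
      have : M + m ≤ M := h2
      omega)
  set a := al l1 - (M : K) with ha
  -- infinitely many primes
  have hinf : Set.Infinite {p : ℕ | ∃ l, ∃ m : ℤ, (p : K) * a - al l - (m : K) = 0} := by
    rw [Set.infinite_iff_exists_gt]
    intro b
    obtain ⟨p, hpf, hp, ⟨ι⟩⟩ := hSPLIT K (p0 + b + 1)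
    obtain ⟨l, m, h⟩ := hp0 p (by omega) ι
    exact ⟨p, ⟨l, m, h⟩, by omega⟩
  have hch : ∀ p : ℕ, ∃ l : Fin ρ, p ∈ {p : ℕ | ∃ l, ∃ m : ℤ, (p : K) * a - al l - (m : K) = 0} →
      ∃ m : ℤ, (p : K) * a - al l - (m : K) = 0 := by
    intro p
    by_cases h : p ∈ {p : ℕ | ∃ l, ∃ m : ℤ, (p : K) * a - al l - (m : K) = 0}
    · obtain ⟨l, m, hl⟩ := h
      exact ⟨l, fun _ => ⟨m, hl⟩⟩
    · exact ⟨l1, fun h' => absurd h' h⟩
  choose g hg using hch
  obtain ⟨p, hp, p', hp', hne', hgg⟩ := hinf.exists_ne_map_eq_of_mapsTo (f := g)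
    (t := Set.univ) (fun _ _ => Set.mem_univ _) Set.finite_univ
  obtain ⟨m, hm⟩ := hg p hp
  obtain ⟨m', hm'⟩ := hg p' hp'
  rw [hgg] at hm
  have h1 : ((p : K) - (p' : K)) * a = (m : K) - (m' : K) := by
    linear_combination hm - hm'
  have h2 : ((p : K) - (p' : K)) ≠ 0 := by
    rw [sub_ne_zero]
    intro h
    exact hne' (by exact_mod_cast h)
  have h3 : a = ((((m - m' : ℤ) : ℚ) / ((p - p' : ℤ) : ℚ) : ℚ) : K) := by
    push_cast
    rw [eq_div_iff h2, mul_comm]
    exact h1
  refine ⟨(((m - m' : ℤ) : ℚ) / ((p - p' : ℤ) : ℚ) : ℚ) + (M : ℚ), ?_⟩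
  have h4 : al l1 = a + (M : K) := by rw [ha]; ring
  rw [h4, h3]
  push_cast
  ring

end stepB

theorem expk (hEXPP : ExppStmt) (hBCK : BckStmt) (hNRM : NrmStmt) (hSPLIT : SplitStmt)
    (hSPG : SpgStmt) (hSPO : SpoStmt) (hFRB : FrbStmt) : ExpkStmt := by
  intro q K _ _ I _ _ L Q χ hF hP hchar
  classical
  let K' := χ.SplittingField
  have : NumberField K' := NumberField.of_module_finite K K'
  let j : K →+* K' := algebraMap K K'
  have hmonic : χ.Monic := by
    have h1 := Matrix.charpoly_monic (mco 0 Q)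
    rw [hchar] at h1
    exact (Function.Injective.monic_map_iff (kO_inj q)).mpr h1
  have hsplit := Polynomial.SplittingField.splits χ
  have hprod := hsplit.eq_prod_roots
  have hmon' : (χ.map j).Monic := hmonic.map j
  rw [show Polynomial.map (algebraMap K χ.SplittingField) χ = χ.map j from rfl] at hprod
  rw [hmon'.leadingCoeff, map_one, one_mul] at hprod
  set rl : List K' := (χ.map j).roots.toList with hrl
  have hprod2 : χ.map j = (rl.map fun x => Polynomial.X - Polynomial.C x).prod := by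
    conv_lhs => rw [hprod]
    rw [← Multiset.coe_toList (χ.map j).roots, Multiset.map_coe, Multiset.prod_coe]
  have hchar' : (mco 0 (Q.map (mL q j))).charpoly =
      ∏ l : Fin rl.length, (Polynomial.X - Polynomial.C (kO q K' (rl.get l))) := by
    have h1 : mco 0 (Q.map (mL q j)) = (mco 0 Q).map (mO q j) := by
      ext1 i i'
      rfl
    rw [h1, Matrix.charpoly_map, hchar, Polynomial.map_map]
    have h2 : (mO q j).comp (kO q K) = (kO q K').comp j := by
      ext1 b
      exact mO_kO q j b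
    rw [h2, ← Polynomial.map_map, hprod2, Polynomial.map_list_prod, List.map_map,
      ← List.prod_ofFn]
    congr 1
    apply List.ext_get
    · simp
    · intro n h3 h4
      simp
  have hF' : FrobK L (Q.map (mL q j)) := hBCK q K K' j I L Q hF
  have hP' : PolF (Q.map (mL q j)) := by
    intro i i' m hm
    show mO q j ((Q i i').coeff m) = 0
    rw [hP i i' m hm, map_zero]
  choose r hr using fun l1 => step_A hEXPP hNRM hSPLIT hSPG hSPO hFRB L (Q.map (mL q j))
    (fun l => rl.get l) hF' hP' hchar' l1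
  refine ⟨List.ofFn r, ?_⟩
  apply Polynomial.map_injective j j.injective
  have h6 : ∀ t : List ℚ, (t >>= fun a => pure ((a : ℚ) : K)) = t.map fun a : ℚ => (a : K) := by
    intro t
    exact bind_pure_comp (m := List) (fun a : ℚ => (a : K)) t
  rw [hprod2, Polynomial.map_list_prod, List.map_map, h6, List.map_ofFn, List.map_ofFn]
  have h5 : rl = List.ofFn fun l => ((r l : ℚ) : K') := by
    conv_lhs => rw [← List.ofFn_get rl]
    congr 1
    funext l
    exact hr l
  conv_lhs => rw [h5]
  rw [List.map_ofFn]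
  congr 2
  funext l
  simp

end Pool.Agent.Helper95_CM.H32
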