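import Mathlib
import Pool.Agent.Helper95_CM.StK
import Pool.Agent.Helper32_CM.Lau

/-!
# CM, module LATK: from pole-free cyclic relations to a stable lattice
-/

set_option autoImplicit false

namespace Pool.Agent.Helper95_CM.H32

open HahnSeries

section latk

set_option linter.unusedSectionVars false

variable {k : Type} [Field k] {I : Type} [Fintype I] [DecidableEq I]

lemma nbv_smul (Q : Matrix I I (LaurentSeries k)) (c : LaurentSeries k)
    (v : I → LaurentSeries k) :
    nbv (tht k) Q (c • v) = tht k c • v + c • nbv (tht k) Q v := by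
  funext i
  show tht k (c * v i) + (Q.mulVec (c • v)) i =
    tht k c * v i + c * (tht k (v i) + (Q.mulVec v) i)
  rw [tht_mul, Matrix.mulVec_smul]
  show tht k c * v i + c * tht k (v i) + c * (Q.mulVec v) i = _
  ring

/-- A vector with a minimal relation. -/
lemma exists_rel (Q : Matrix I I (LaurentSeries k)) (x : I → LaurentSeries k) :
    ∃ m : ℕ, LinearIndependent (LaurentSeries k)
      (fun j : Fin m => ((nbE (tht k) Q) ^ (j : ℕ)) x) ∧
      ∃ f : Fin m → LaurentSeries k, ((nbE (tht k) Q) ^ m) x =
        ∑ j, f j • ((nbE (tht k) Q) ^ (j : ℕ)) x := by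
  classical
  have h1 : ∃ m : ℕ, ¬ LinearIndependent (LaurentSeries k)
      (fun j : Fin m => ((nbE (tht k) Q) ^ (j : ℕ)) x) := by
    refine ⟨Module.finrank (LaurentSeries k) (I → LaurentSeries k) + 1, fun h => ?_⟩
    have := h.fintype_card_le_finrank
    rw [Fintype.card_fin] at this
    omega
  have h2 := Nat.find_spec h1
  set m' := Nat.find h1 with hm'
  have h3 : m' ≠ 0 := by
    intro h0
    apply h2
    rw [h0]
    exact linearIndependent_empty_type
  obtain ⟨m, hm⟩ : ∃ m, m' = m + 1 := ⟨m' - 1, by omega⟩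
  have h4 : LinearIndependent (LaurentSeries k)
      (fun j : Fin m => ((nbE (tht k) Q) ^ (j : ℕ)) x) := by
    have := Nat.find_min h1 (m := m) (by omega)
    rwa [not_not] at this
  refine ⟨m, h4, ?_⟩
  rw [hm] at h2
  rw [linearIndependent_finSucc'] at h2
  have h5 : ((nbE (tht k) Q) ^ m) x ∈ Submodule.span (LaurentSeries k)
      (Set.range fun j : Fin m => ((nbE (tht k) Q) ^ (j : ℕ)) x) := by
    by_contra hcon
    apply h2
    refine ⟨?_, ?_⟩
    · exact h4
    · exact hcon
  rw [Submodule.mem_span_range_iff_exists_fun] at h5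
  obtain ⟨c, hc⟩ := h5
  exact ⟨c, hc.symm⟩

/-- The lattice. -/
lemma exists_lattice (Q : Matrix I I (LaurentSeries k))
    (hQ : ∀ (i : I) (m : ℕ) (f : Fin m → LaurentSeries k),
      LinearIndependent (LaurentSeries k)
        (fun j : Fin m => ((nbE (tht k) Q) ^ (j : ℕ)) (Pi.single i 1)) →
      ((nbE (tht k) Q) ^ m) (Pi.single i 1) =
        ∑ j, f j • ((nbE (tht k) Q) ^ (j : ℕ)) (Pi.single i 1) → ∀ j, OrdGe 0 (f j)) :
    ∃ (w : I → I → LaurentSeries k) (Q1 : Matrix I I (PowerSeries k)),
      LinearIndependent (LaurentSeries k) w ∧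
      ∀ c, nbv (tht k) Q (w c) = ∑ j, (Q1 j c : LaurentSeries k) • w j := by
  classical
  choose m hm f hf using fun i => exists_rel Q (Pi.single i (1 : LaurentSeries k))
  have hfO : ∀ i j, OrdGe 0 (f i j) := fun i j => hQ i (m i) (f i) (hm i) (hf i) j
  let V := I → LaurentSeries k
  let gens : (Σ i : I, Fin (m i + 1)) → V := fun p =>
    ((nbE (tht k) Q) ^ (p.2 : ℕ)) (Pi.single p.1 1)
  let L : Submodule (PowerSeries k) V := Submodule.span (PowerSeries k) (Set.range gens)
  have hsm : ∀ (c : PowerSeries k) (v : V), c • v = (c : LaurentSeries k) • v := by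
    intro c v
    funext i
    show c • v i = (c : LaurentSeries k) * v i
    rw [Algebra.smul_def]
    rfl
  have hsmL : ∀ (c : LaurentSeries k), OrdGe 0 c → ∀ v ∈ L, c • v ∈ L := by
    intro c hc v hv
    obtain ⟨c', rfl⟩ := exists_coe hc
    rw [← hsm]
    exact L.smul_mem c' hv
  have hgen : ∀ i (j : ℕ), j ≤ m i → ((nbE (tht k) Q) ^ j) (Pi.single i 1) ∈ L := by
    intro i j hj
    apply Submodule.subset_span
    exact ⟨⟨i, ⟨j, by omega⟩⟩, rfl⟩
  have hgen2 : ∀ i (j : ℕ), j ≤ m i → ((nbE (tht k) Q) ^ (j + 1)) (Pi.single i 1) ∈ L := by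
    intro i j hj
    rcases Nat.lt_or_ge j (m i) with h | h
    · exact hgen i (j + 1) h
    · have hjm : j = m i := by omega
      subst hjm
      rw [pow_succ']
      show nbv (tht k) Q (((nbE (tht k) Q) ^ (m i)) (Pi.single i 1)) ∈ L
      rw [hf i, map_sum]
      apply L.sum_mem
      intro j _
      rw [nbv_smul]
      apply L.add_mem
      · exact hsmL _ (og_tht (hfO i j)) _ (hgen i j j.2.le)
      · apply hsmL _ (hfO i j)
        have h5 : nbv (tht k) Q (((nbE (tht k) Q) ^ (j : ℕ)) (Pi.single i 1)) =
            ((nbE (tht k) Q) ^ ((j : ℕ) + 1)) (Pi.single i 1) := by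
          rw [pow_succ']
          rfl
        rw [h5]
        exact hgen i (j + 1) j.2
  have hstab : ∀ v ∈ L, nbv (tht k) Q v ∈ L := by
    intro v hv
    induction hv using Submodule.span_induction with
    | mem x hx =>
      obtain ⟨p, rfl⟩ := hx
      have h5 : nbv (tht k) Q (gens p) =
          ((nbE (tht k) Q) ^ ((p.2 : ℕ) + 1)) (Pi.single p.1 1) := by
        rw [pow_succ']
        rfl
      rw [h5]
      exact hgen2 p.1 p.2 (by have := p.2.2; omega)
    | zero => rw [map_zero]; exact L.zero_mem
    | add x y hx hy ihx ihy => rw [map_add]; exact L.add_mem ihx ihy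
    | smul c x hx ihx =>
      rw [hsm, nbv_smul]
      exact L.add_mem (hsmL _ (og_tht (ordGe_coe c)) _ hx) (hsmL _ (ordGe_coe c) _ ihx)
  have hfin : Module.Finite (PowerSeries k) L :=
    Module.Finite.iff_fg.mpr (Submodule.fg_span (Set.finite_range gens))
  have htf : Module.IsTorsionFree (PowerSeries k) L := by
    refine ⟨fun r hr x y hxy => ?_⟩
    have hr0 : r ≠ 0 := hr.ne_zero
    have hr1 : (r : LaurentSeries k) ≠ 0 := by
      intro h0
      apply hr0
      apply (HahnSeries.ofPowerSeries_injective (Γ := ℤ) (R := k))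
      rw [map_zero]
      exact h0
    apply Subtype.ext
    have h5 : r • (x : V) = r • (y : V) := congrArg Subtype.val hxy
    rw [hsm, hsm] at h5
    funext i
    have h6 := congrFun h5 i
    exact mul_left_cancel₀ hr1 h6
  have hfree : Module.Free (PowerSeries k) L := inferInstance
  let b := Module.Free.chooseBasis (PowerSeries k) L
  let ι := Module.Free.ChooseBasisIndex (PowerSeries k) L
  let w0 : ι → V := fun j => (b j : V)
  have hli0 : LinearIndependent (PowerSeries k) w0 := by
    have := b.linearIndependent.map' L.subtype (Submodule.ker_subtype L)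
    exact this
  have hli1 : LinearIndependent (LaurentSeries k) w0 :=
    (LinearIndependent.iff_fractionRing (PowerSeries k) (LaurentSeries k)).mp hli0
  have hexp : ∀ v ∈ L, ∃ c : ι → PowerSeries k, v = ∑ j, (c j : LaurentSeries k) • w0 j := by
    intro v hv
    refine ⟨fun j => b.repr ⟨v, hv⟩ j, ?_⟩
    have h5 := b.sum_repr ⟨v, hv⟩
    have h6 := congrArg (fun x : L => (x : V)) h5
    simp only [Submodule.coe_sum, Submodule.coe_smul] at h6
    refine h6.symm.trans ?_
    apply Finset.sum_congr rfl
    intro j _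
    rw [hsm]
  have hspan : ⊤ ≤ Submodule.span (LaurentSeries k) (Set.range w0) := by
    intro v _
    have h5 : v = ∑ i, v i • (Pi.single i (1 : LaurentSeries k) : V) := by
      funext j
      rw [Finset.sum_apply]
      simp [Pi.single_apply]
    rw [h5]
    apply Submodule.sum_mem
    intro i _
    apply Submodule.smul_mem
    obtain ⟨c, hc⟩ := hexp _ (hgen i 0 (Nat.zero_le _))
    have h6 : (Pi.single i (1 : LaurentSeries k) : V) = ∑ j, (c j : LaurentSeries k) • w0 j := hc
    rw [h6]
    apply Submodule.sum_mem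
    intro j _
    apply Submodule.smul_mem
    exact Submodule.subset_span ⟨j, rfl⟩
  let B := Module.Basis.mk hli1 hspan
  have hcard : Fintype.card ι = Fintype.card I := by
    have h5 := Module.finrank_eq_card_basis B
    rw [Module.finrank_fintype_fun_eq_card] at h5
    exact h5.symm
  let e : ι ≃ I := Fintype.equivOfCardEq hcard
  have hQ1 : ∀ c : I, ∃ q : ι → PowerSeries k,
      nbv (tht k) Q (w0 (e.symm c)) = ∑ j, (q j : LaurentSeries k) • w0 j :=
    fun c => hexp _ (hstab _ (b (e.symm c)).2)
  choose q hq using hQ1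
  refine ⟨fun i => w0 (e.symm i), Matrix.of fun j c => q c (e.symm j), ?_, ?_⟩
  · exact hli1.comp _ e.symm.injective
  · intro c
    rw [hq c]
    rw [← e.symm.sum_comp]
    rfl

lemma polF_mul {Q Q' : Matrix I I (LaurentSeries k)} (h : PolF Q) (h' : PolF Q') :
    PolF (Q * Q') := by
  intro i j
  rw [Matrix.mul_apply]
  apply og_sum
  intro l _
  have := og_mul (h i l) (h' l j)
  simpa using this

lemma polF_add {Q Q' : Matrix I I (LaurentSeries k)} (h : PolF Q) (h' : PolF Q') :
    PolF (Q + Q') := fun i j => og_add (h i j) (h' i j)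

lemma map_tht_mul (A B : Matrix I I (LaurentSeries k)) :
    (A * B).map (tht k) = A.map (tht k) * B + A * B.map (tht k) := by
  ext1 i j
  rw [Matrix.map_apply, Matrix.add_apply, Matrix.mul_apply, Matrix.mul_apply, Matrix.mul_apply,
    map_sum, ← Finset.sum_add_distrib]
  apply Finset.sum_congr rfl
  intro l _
  rw [tht_mul]
  rfl

end latk

theorem latk : LatkStmt := by
  intro k _ I _ _ Q hQ
  classical
  obtain ⟨w, Q1, hw, hD⟩ := exists_lattice Q hQ
  let cc : PowerSeries k →+* LaurentSeries k := HahnSeries.ofPowerSeries ℤ k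
  let U1 : Matrix I I (LaurentSeries k) := Matrix.of fun r c => w c r
  have hunit : IsUnit U1 := by
    rw [← Matrix.linearIndependent_cols_iff_isUnit]
    exact hw
  have hdet : IsUnit U1.det := (Matrix.isUnit_iff_isUnit_det _).mp hunit
  set U1i := U1⁻¹ with hU1i
  have hinv : U1 * U1i = 1 := Matrix.mul_nonsing_inv _ hdet
  have hinv' : U1i * U1 = 1 := Matrix.nonsing_inv_mul _ hdet
  have heq : U1.map (tht k) + Q * U1 = U1 * Q1.map cc := by
    ext1 r c
    have h1 := congrFun (hD c) r
    rw [Finset.sum_apply] at h1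
    rw [Matrix.add_apply, Matrix.map_apply, Matrix.mul_apply, Matrix.mul_apply]
    have h2 : nbv (tht k) Q (w c) r = tht k (U1 r c) + ∑ j, Q r j * U1 j c := rfl
    rw [← h2, h1]
    apply Finset.sum_congr rfl
    intro j _
    show cc (Q1 j c) * w j r = w j r * cc (Q1 j c)
    exact mul_comm _ _
  obtain ⟨a, ha⟩ := exists_ordGe_fin (Finset.univ : Finset (I × I)) (fun p => U1i p.1 p.2)
  let U : Matrix I I (LaurentSeries k) := U1.map (trn (-a))
  let Y : Matrix I I (LaurentSeries k) := U1i * (U1 - U)
  have hY : ∀ i j, OrdGe 1 (Y i j) := by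
    intro i j
    show OrdGe 1 ((U1i * (U1 - U)) i j)
    rw [Matrix.mul_apply]
    apply og_sum
    intro l _
    have h1 := og_mul (ha (i, l) (Finset.mem_univ _)) (sub_trn (-a) (U1 l j))
    have h2 : a + (-a + 1) = 1 := by ring
    rw [h2] at h1
    exact h1
  set H : Matrix I I (LaurentSeries k) := U1i * U with hH
  have hHY : H = 1 - Y := by
    show U1i * U = 1 - U1i * (U1 - U)
    rw [mul_sub, hinv']
    abel
  have hone : ∀ i j : I, (1 : Matrix I I (LaurentSeries k)) i j =
      cc ((1 : Matrix I I (PowerSeries k)) i j) := by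
    intro i j
    rw [Matrix.one_apply, Matrix.one_apply]
    split_ifs
    · rw [map_one]
    · rw [map_zero]
  have hH0 : ∀ i j, OrdGe 0 (H i j) := by
    intro i j
    rw [hHY, Matrix.sub_apply]
    apply og_sub
    · rw [hone]
      exact ordGe_coe _
    · exact og_mono (by norm_num) (hY i j)
  choose H0 hH0' using fun i j => exists_coe (hH0 i j)
  have hmap : (Matrix.of H0).map cc = H := by
    ext1 i j
    exact hH0' i j
  have hconst : (Matrix.of H0).map (PowerSeries.constantCoeff (R := k)) = 1 := by
    ext1 i j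
    rw [Matrix.map_apply]
    have h1 : PowerSeries.constantCoeff (R := k) (H0 i j) = (H i j).coeff 0 := by
      rw [← hH0' i j]
      have := PowerSeries.coeff_coe (R := k) (H0 i j) 0
      rw [this, if_neg (lt_irrefl _)]
      simp
    show PowerSeries.constantCoeff (R := k) (H0 i j) = _
    rw [h1, hHY, Matrix.sub_apply, coeff_sub, hY i j 0 (by norm_num), sub_zero, Matrix.one_apply,
      Matrix.one_apply]
    split_ifs
    · simp
    · simp
  have hHunit : IsUnit (Matrix.of H0).det := by
    rw [PowerSeries.isUnit_iff_constantCoeff]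
    have h1 : PowerSeries.constantCoeff (R := k) (Matrix.of H0).det =
        ((Matrix.of H0).map (PowerSeries.constantCoeff (R := k))).det := by
      rw [RingHom.map_det]
      rfl
    rw [h1, hconst, Matrix.det_one]
    exact isUnit_one
  set Hi : Matrix I I (LaurentSeries k) := (Matrix.of H0)⁻¹.map cc with hHi
  have hHinv : H * Hi = 1 := by
    rw [← hmap, hHi, ← Matrix.map_mul, Matrix.mul_nonsing_inv _ hHunit]
    ext1 i j
    rw [Matrix.map_apply, hone]
  have hHinv' : Hi * H = 1 := by
    rw [← hmap, hHi, ← Matrix.map_mul, Matrix.nonsing_inv_mul _ hHunit]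
    ext1 i j
    rw [Matrix.map_apply, hone]
  have hUH : U = U1 * H := by
    rw [hH, ← mul_assoc, hinv, one_mul]
  refine ⟨U, Hi * U1i, Hi * (H.map (tht k) + Q1.map cc * H), ⟨?_, ?_, ?_⟩, ?_, ?_⟩
  · rw [hUH]
    calc U1 * H * (Hi * U1i) = U1 * (H * Hi) * U1i := by simp only [mul_assoc]
      _ = 1 := by rw [hHinv, mul_one, hinv]
  · rw [hUH]
    calc Hi * U1i * (U1 * H) = Hi * (U1i * U1) * H := by simp only [mul_assoc]
      _ = 1 := by rw [hinv', mul_one, hHinv']
  · rw [hUH, map_tht_mul]
    calc U1.map (tht k) * H + U1 * H.map (tht k) + Q * (U1 * H)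
        = (U1.map (tht k) + Q * U1) * H + U1 * H.map (tht k) := by
          rw [add_mul, mul_assoc]
          abel
      _ = U1 * (H.map (tht k) + Q1.map cc * H) := by
          rw [heq, mul_add, mul_assoc]
          abel
      _ = U1 * (H * Hi) * (H.map (tht k) + Q1.map cc * H) := by rw [hHinv, mul_one]
      _ = U1 * H * (Hi * (H.map (tht k) + Q1.map cc * H)) := by simp only [mul_assoc]
  · apply polF_mul
    · intro i j
      exact ordGe_coe _
    · apply polF_add
      · intro i j
        exact og_tht (hH0 i j)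
      · apply polF_mul
        · intro i j
          exact ordGe_coe _
        · exact hH0
  · refine ⟨-a, fun i j m hm => ?_⟩
    show (trn (-a) (U1 i j)).coeff m = 0
    rw [trn_coeff, if_neg (by omega)]

end Pool.Agent.Helper95_CM.H32
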