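import Mathlib
import Pool.Agent.Helper95_CM.StG

/-!
# CM, module WIN: the window lemma
-/

set_option autoImplicit false

namespace Pool.Agent.Helper95_CM.H32

open MvPolynomial

lemma toZMod_ne {p : ℕ} [Fact p.Prime] (x : ℤ_[p]) :
    ¬ (p : ℤ_[p]) ∣ x ↔ PadicInt.toZMod (p := p) x ≠ 0 := by
  rw [not_iff_comm, not_not]
  constructor
  · intro h
    have h1 : x ∈ RingHom.ker (PadicInt.toZMod (p := p)) := h
    rw [PadicInt.ker_toZMod, PadicInt.maximalIdeal_eq_span_p, Ideal.mem_span_singleton] at h1
    exact h1
  · intro h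
    have h1 : x ∈ RingHom.ker (PadicInt.toZMod (p := p)) := by
      rw [PadicInt.ker_toZMod, PadicInt.maximalIdeal_eq_span_p, Ideal.mem_span_singleton]
      exact h
    exact h1

/-- Coefficients of a product of powers of `1 + X k`. -/
lemma coeff_prod_one_add {n : ℕ} {F : Type} [CommRing F] (m : Fin n → ℕ) (e : Fin n →₀ ℕ) :
    coeff e (∏ k, (1 + X k : MvPolynomial (Fin n) F) ^ m k) =
      ∏ k, ((m k).choose (e k) : F) := by
  classical
  have h1 : ∀ k, (1 + X k : MvPolynomial (Fin n) F) ^ m k =
      ∑ j ∈ Finset.range (m k + 1), C (((m k).choose j : ℕ) : F) * X k ^ j := by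
    intro k
    rw [add_comm, add_pow]
    apply Finset.sum_congr rfl
    intro j _
    rw [one_pow, mul_one, mul_comm]
    congr 1
  rw [Finset.prod_congr rfl fun k _ => h1 k, Finset.prod_univ_sum]
  have h2 : ∀ j : Fin n → ℕ, (∏ k, (C (((m k).choose (j k) : ℕ) : F) * X k ^ (j k) :
      MvPolynomial (Fin n) F)) =
      monomial (Finsupp.equivFunOnFinite.symm j) (∏ k, (((m k).choose (j k) : ℕ) : F)) := by
    intro j
    rw [Finset.prod_mul_distrib, ← map_prod, monomial_eq]
    congr 1
    rw [Finsupp.prod_fintype]
    · rfl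
    · intro i; exact pow_zero _
  rw [Finset.sum_congr rfl fun j _ => h2 j, coeff_sum]
  simp only [coeff_monomial]
  by_cases he : ∀ k, e k ≤ m k
  · rw [Finset.sum_eq_single (fun k => e k)]
    · rw [if_pos]
      ext k
      rfl
    · intro j _ hj
      rw [if_neg]
      intro h
      apply hj
      funext k
      rw [← h]
      rfl
    · intro h
      exfalso
      apply h
      rw [Fintype.mem_piFinset]
      intro k
      rw [Finset.mem_range]
      have := he k
      omega
  · push Not at he
    obtain ⟨k, hk⟩ := he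
    have h3 : ∏ k, ((m k).choose (e k) : F) = 0 := by
      apply Finset.prod_eq_zero (Finset.mem_univ k)
      rw [Nat.choose_eq_zero_of_lt hk]
      simp
    rw [h3]
    apply Finset.sum_eq_zero
    intro j hj
    rw [if_neg]
    intro h
    rw [Fintype.mem_piFinset] at hj
    have h4 := hj k
    rw [Finset.mem_range] at h4
    have h5 : j k = e k := by
      rw [← h]
      rfl
    omega

/-- Binomial coefficients which vanish modulo `p`. -/
lemma choose_window (p : ℕ) [Fact p.Prime] (lo v e : ℕ) (hv : v < lo)
    (he : lo ≤ e) (he' : e ≤ p - 1) : (((p - 1 + lo - v).choose e : ℕ) : ZMod p) = 0 := by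
  have hp := (Fact.out : p.Prime).two_le
  have h1 : p - 1 + lo - v = p + (lo - 1 - v) := by omega
  rw [h1, Nat.add_choose_eq]
  push_cast
  apply Finset.sum_eq_zero
  rintro ⟨a, b⟩ hab
  rw [Finset.HasAntidiagonal.mem_antidiagonal] at hab
  simp only at hab ⊢
  rcases Nat.eq_zero_or_pos a with ha | ha
  · subst ha
    have : lo - 1 - v < b := by omega
    rw [Nat.choose_eq_zero_of_lt this]
    simp
  · have h2 : p ∣ p.choose a := (Fact.out : p.Prime).dvd_choose_self ha.ne' (by omega)
    have h3 : ((p.choose a : ℕ) : ZMod p) = 0 := (ZMod.natCast_eq_zero_iff _ _).mpr h2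
    rw [h3, zero_mul]

lemma degreeOf_one_sub {n : ℕ} {R : Type} [CommRing R] (dd : Fin n → ℕ)
    (g : MvPolynomial (Fin n) R) (hg : ∀ k, degreeOf k g ≤ dd k) (k : Fin n) :
    degreeOf k (aeval (fun k => 1 - X k : Fin n → MvPolynomial (Fin n) R) g) ≤ dd k := by
  classical
  rw [aeval_def, eval₂_eq]
  refine (degreeOf_sum_le _ _ _).trans ?_
  rw [Finset.sup_le_iff]
  intro u hu
  refine (degreeOf_mul_le _ _ _).trans ?_
  have h1 : degreeOf k ((algebraMap R (MvPolynomial (Fin n) R)) (coeff u g)) = 0 := by
    rw [algebraMap_eq]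
    exact degreeOf_C _ _
  rw [h1, zero_add]
  have h2 : ∀ s : Finset (Fin n), degreeOf k (∏ i ∈ s, (1 - X i : MvPolynomial (Fin n) R) ^ u i) ≤
      if k ∈ s then u k else 0 := by
    intro s
    induction s using Finset.induction_on with
    | empty => simp
    | insert a s ha ih =>
      rw [Finset.prod_insert ha]
      refine (degreeOf_mul_le _ _ _).trans ?_
      have h3 : degreeOf k ((1 - X a : MvPolynomial (Fin n) R) ^ u a) ≤
          if k = a then u k else 0 := by
        refine (degreeOf_pow_le _ _ _).trans ?_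
        have h4 : degreeOf k (1 - X a : MvPolynomial (Fin n) R) ≤ if k = a then 1 else 0 := by
          have h5 : degreeOf k (1 - X a : MvPolynomial (Fin n) R) ≤
              max (degreeOf k (1 : MvPolynomial (Fin n) R)) (degreeOf k (X a)) :=
            degreeOf_sub_le _ _ _
          refine h5.trans ?_
          rw [degreeOf_one]
          rcases subsingleton_or_nontrivial R with hR | hR
          · have : (X a : MvPolynomial (Fin n) R) = 0 := Subsingleton.elim _ _
            rw [this, degreeOf_zero]
            simp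
          · rw [degreeOf_X]
            by_cases hka : k = a
            · simp [hka]
            · simp [hka]
        by_cases hka : k = a
        · rw [if_pos hka] at h4 ⊢
          subst hka
          nlinarith
        · rw [if_neg hka] at h4 ⊢
          have : degreeOf k (1 - X a : MvPolynomial (Fin n) R) = 0 := by omega
          rw [this, mul_zero]
      by_cases hka : k = a
      · subst hka
        rw [if_neg ha] at ih
        rw [if_pos rfl] at h3
        rw [if_pos (Finset.mem_insert_self _ _)]
        omega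
      · rw [if_neg hka] at h3
        by_cases hks : k ∈ s
        · rw [if_pos hks] at ih
          rw [if_pos (Finset.mem_insert_of_mem hks)]
          omega
        · rw [if_neg hks] at ih
          omega
  refine (h2 u.support).trans ?_
  split_ifs
  · have h6 : u k ≤ degreeOf k g := by
      rw [degreeOf_eq_sup]
      exact Finset.le_sup (f := fun m : Fin n →₀ ℕ => m k) hu
    exact h6.trans (hg k)
  · exact Nat.zero_le _

theorem win : WinStmt := by
  intro n p i lo _ dd g hdeg hdi hlo1 hlo2 _ hv
  classical
  have hp := (Fact.out : p.Prime).two_le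
  obtain ⟨v0, hv0, hv0p⟩ := hv
  set G : MvPolynomial (Fin n) ℤ_[p] :=
    (aeval (fun k => 1 - X k : Fin n → MvPolynomial (Fin n) ℤ_[p]) g) ^ i with hG
  set R : ℕ := p - 1 + lo with hR
  set π : ℤ_[p] →+* ZMod p := PadicInt.toZMod with hπ
  -- degrees of `G`
  have hGdeg : ∀ v ∈ G.support, ∀ k, v k ≤ dd k * i := by
    intro v hv k
    have h1 : v k ≤ degreeOf k G := by
      rw [degreeOf_eq_sup]
      exact Finset.le_sup (f := fun m : Fin n →₀ ℕ => m k) hv
    have h2 : degreeOf k G ≤ i * degreeOf k
        (aeval (fun k => 1 - X k : Fin n → MvPolynomial (Fin n) ℤ_[p]) g) :=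
      degreeOf_pow_le _ _ _
    have h3 := degreeOf_one_sub dd g hdeg k
    calc v k ≤ _ := h1
      _ ≤ _ := h2
      _ ≤ i * dd k := Nat.mul_le_mul_left _ h3
      _ = dd k * i := mul_comm _ _
  -- the polynomial `h` modulo `p`
  set h : MvPolynomial (Fin n) ℤ_[p] := (∏ k, (1 + X k) ^ (R - dd k * i)) *
      (g.support.sum fun u => C (coeff u g) *
        ∏ k, (X k ^ (u k) * (1 + X k) ^ (dd k - u k))) ^ i with hh
  let K := FractionRing (MvPolynomial (Fin n) (ZMod p))
  let ψ : MvPolynomial (Fin n) (ZMod p) →+* K := algebraMap _ _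
  have hψ : Function.Injective ψ := IsFractionRing.injective _ _
  let φ : ℤ_[p] →+* K := ψ.comp ((C : ZMod p →+* MvPolynomial (Fin n) (ZMod p)).comp π)
  let w : Fin n → K := fun k => ψ (1 + X k)
  have hw : ∀ k, w k ≠ 0 := by
    intro k
    have h1 : (1 + X k : MvPolynomial (Fin n) (ZMod p)) ≠ 0 := by
      intro h0
      have h2 := congrArg (coeff (0 : Fin n →₀ ℕ)) h0
      rw [coeff_add, coeff_one, if_pos rfl, coeff_zero] at h2
      have h3 : coeff (0 : Fin n →₀ ℕ) (X k : MvPolynomial (Fin n) (ZMod p)) = 0 := by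
        rw [← constantCoeff_eq, constantCoeff_X]
      rw [h3, add_zero] at h2
      exact one_ne_zero h2
    intro h0
    exact h1 (hψ (by rw [map_zero]; exact h0))
  -- evaluation
  have key : ψ (map π h) = ∑ v ∈ G.support, φ (coeff v G) * ∏ k, w k ^ (R - v k) := by
    have e1 : ψ (map π h) = (∏ k, w k ^ (R - dd k * i)) *
        (g.support.sum fun u => φ (coeff u g) *
          ∏ k, ((ψ (X k)) ^ (u k) * w k ^ (dd k - u k))) ^ i := by
      rw [hh]
      have hw1 : ∀ k, w k = 1 + ψ (X k) := by
        intro k
        show ψ (1 + X k) = 1 + ψ (X k)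
        rw [map_add, map_one]
      have hφ1 : ∀ x, φ x = ψ (C (π x)) := fun x => rfl
      simp only [map_mul, map_prod, map_pow, map_sum, map_add, map_one, map_X, map_C, hw1, hφ1]
    have e2 : (g.support.sum fun u => φ (coeff u g) *
          ∏ k, ((ψ (X k)) ^ (u k) * w k ^ (dd k - u k))) =
        (∏ k, w k ^ dd k) * eval₂ φ (fun k => ψ (X k) * (w k)⁻¹) g := by
      rw [eval₂_eq', Finset.mul_sum]
      apply Finset.sum_congr rfl
      intro u hu
      rw [mul_left_comm, ← Finset.prod_mul_distrib]
      congr 1
      apply Finset.prod_congr rfl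
      intro k _
      have h6 : u k ≤ dd k := by
        have h7 : u k ≤ degreeOf k g := by
          rw [degreeOf_eq_sup]
          exact Finset.le_sup (f := fun m : Fin n →₀ ℕ => m k) hu
        exact h7.trans (hdeg k)
      rw [mul_pow, inv_pow, ← mul_assoc, mul_comm (w k ^ dd k), mul_assoc]
      congr 1
      rw [pow_sub₀ _ (hw k) h6]
    have e3 : eval₂ φ (fun k => ψ (X k) * (w k)⁻¹) g =
        eval₂ φ (fun k => (w k)⁻¹)
          (aeval (fun k => 1 - X k : Fin n → MvPolynomial (Fin n) ℤ_[p]) g) := by
      have h8 : ∀ f : MvPolynomial (Fin n) ℤ_[p], eval₂ φ (fun k => (w k)⁻¹)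
          (aeval (fun k => 1 - X k : Fin n → MvPolynomial (Fin n) ℤ_[p]) f) =
          eval₂ φ (fun k => 1 - (w k)⁻¹) f := by
        intro f
        have h9 : ((eval₂Hom φ (fun k => (w k)⁻¹)).comp
            ((aeval (fun k => 1 - X k : Fin n → MvPolynomial (Fin n) ℤ_[p]) :
              MvPolynomial (Fin n) ℤ_[p] →ₐ[ℤ_[p]] MvPolynomial (Fin n) ℤ_[p]) :
              MvPolynomial (Fin n) ℤ_[p] →+* MvPolynomial (Fin n) ℤ_[p])) =
            eval₂Hom φ (fun k => 1 - (w k)⁻¹) := by
          apply MvPolynomial.ringHom_ext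
          · intro r
            simp
          · intro k
            simp
        exact RingHom.congr_fun h9 f
      rw [h8]
      congr 1
      funext k
      have h10 : ψ (X k) = w k - 1 := by
        show ψ (X k) = ψ (1 + X k) - 1
        rw [map_add, map_one]
        ring
      rw [h10, sub_mul, mul_inv_cancel₀ (hw k), one_mul]
    rw [e1, e2, e3, mul_pow]
    have e4 : eval₂ φ (fun k => (w k)⁻¹)
          (aeval (fun k => 1 - X k : Fin n → MvPolynomial (Fin n) ℤ_[p]) g) ^ i =
        eval₂ φ (fun k => (w k)⁻¹) G := by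
      rw [hG, ← coe_eval₂Hom, map_pow]
    rw [e4, ← mul_assoc, ← Finset.prod_pow, ← Finset.prod_mul_distrib, eval₂_eq',
      Finset.mul_sum]
    apply Finset.sum_congr rfl
    intro v hv
    rw [mul_left_comm, ← Finset.prod_mul_distrib]
    congr 1
    apply Finset.prod_congr rfl
    intro k _
    have h11 := hGdeg v hv k
    have h12 := hdi k
    rw [← pow_mul, ← pow_add, inv_pow, pow_sub₀ _ (hw k) (by omega)]
    congr 2
    omega
  have key2 : map π h = ∑ v ∈ G.support, C (π (coeff v G)) *
      ∏ k, (1 + X k : MvPolynomial (Fin n) (ZMod p)) ^ (R - v k) := by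
    apply hψ
    rw [key, map_sum]
    apply Finset.sum_congr rfl
    intro v _
    rw [map_mul, map_prod]
    congr 1
    apply Finset.prod_congr rfl
    intro k _
    rw [map_pow]
  -- the minimal exponent
  set S : Finset (Fin n →₀ ℕ) := G.support.filter
    (fun v => π (coeff v G) ≠ 0 ∧ ∀ k, lo ≤ v k) with hS
  have hSne : S.Nonempty := by
    refine ⟨v0, ?_⟩
    rw [hS, Finset.mem_filter]
    have h1 := (toZMod_ne _).mp hv0p
    refine ⟨?_, h1, hv0⟩
    rw [mem_support_iff]
    intro h0
    apply h1
    rw [h0, map_zero]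
  obtain ⟨v, hvS, hmin⟩ := S.exists_minimal hSne
  have hvS' := Finset.mem_filter.mp hvS
  obtain ⟨hvG, hvne, hvlo⟩ := hvS'
  have hvle : ∀ k, v k ≤ p - 1 := fun k => (hGdeg v hvG k).trans (hdi k)
  refine ⟨Finsupp.equivFunOnFinite.symm (fun k => R - v k), fun k => ?_, ?_⟩
  · have h1 := hvle k
    have h2 := hvlo k
    show lo ≤ R - v k ∧ R - v k ≤ p - 1
    omega
  · rw [toZMod_ne]
    show π (coeff _ h) ≠ 0
    rw [← coeff_map, key2, coeff_sum]
    rw [Finset.sum_eq_single v]
    · rw [coeff_C_mul, coeff_prod_one_add]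
      have h1 : ∀ k, ((((R - v k).choose
          ((Finsupp.equivFunOnFinite.symm (fun k => R - v k)) k) : ℕ) : ZMod p)) = 1 := by
        intro k
        show ((((R - v k).choose (R - v k) : ℕ) : ZMod p)) = 1
        rw [Nat.choose_self]
        simp
      rw [Finset.prod_congr rfl fun k _ => h1 k, Finset.prod_const_one, mul_one]
      exact hvne
    · intro v' hv' hne
      rw [coeff_C_mul, coeff_prod_one_add]
      by_cases h0 : π (coeff v' G) = 0
      · rw [h0, zero_mul]
      · by_cases hlo' : ∀ k, lo ≤ v' k
        · -- some coordinate is larger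
          have h1 : ¬ v' ≤ v := by
            intro hle
            have h2 : v' ∈ S := by
              rw [hS, Finset.mem_filter]
              exact ⟨hv', h0, hlo'⟩
            exact hne (le_antisymm hle (hmin h2 hle))
          rw [Finsupp.le_def] at h1
          push Not at h1
          obtain ⟨k, hk⟩ := h1
          have h3 : (((R - v' k).choose
            ((Finsupp.equivFunOnFinite.symm (fun k => R - v k)) k) : ℕ) : ZMod p) = 0 := by
            show (((R - v' k).choose (R - v k) : ℕ) : ZMod p) = 0
            have h4 := hGdeg v' hv' k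
            have h5 := hdi k
            rw [Nat.choose_eq_zero_of_lt (by omega)]
            simp
          rw [Finset.prod_eq_zero (Finset.mem_univ k) h3, mul_zero]
        · push Not at hlo'
          obtain ⟨k, hk⟩ := hlo'
          have h3 : (((R - v' k).choose
            ((Finsupp.equivFunOnFinite.symm (fun k => R - v k)) k) : ℕ) : ZMod p) = 0 := by
            show (((R - v' k).choose (R - v k) : ℕ) : ZMod p) = 0
            have h1 := hvle k
            have h2 := hvlo k
            exact choose_window p lo (v' k) (R - v k) hk (by omega) (by omega)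
          rw [Finset.prod_eq_zero (Finset.mem_univ k) h3, mul_zero]
    · intro h
      exact absurd hvG h

end Pool.Agent.Helper95_CM.H32
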